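import Pool.Agent.H699.MW.Defs

/-!
There are no bad points for small thresholds (project MW of helper699).
-/

set_option autoImplicit false

open MeasureTheory Finset
open scoped Classical

namespace Pool.Agent.H56.MW.SLP

open Pool.Agent.H699.MW

/-- Two levels at once. -/
theorem two (hSTP : S_STP) (hPRE : S_PRE) (μ : Measure ℝ) (a b : ℝ) (hG : Good μ a b) (d : ℕ) :
    ∃ M : ℕ, ∀ S₀ : ℝ, 0 < S₀ → ∀ θ : ℝ, 0 < θ → ∃ θ' : ℝ, 0 < θ' ∧ ∀ m : ℕ, M ≤ m →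
      ∀ S : ℝ, S₀ ≤ S → (∀ T : RT, T.Wd d → Dom S (law μ b m T false) (law μ b m T true)) →
      ∀ T : RT, T.Wd d → ∀ t : ℝ, Bad μ a b (m + 2) S θ' T t →
        ∃ T' : RT, T'.Wd d ∧ Bad μ a b m S θ T' (t - (b - a) / 2) := by
  obtain ⟨M, hM⟩ := hSTP μ a b hG d
  refine ⟨M, fun S₀ hS₀ θ hθ => ?_⟩
  obtain ⟨θ₁, hθ₁, h1⟩ := hM S₀ hS₀ θ hθ
  obtain ⟨θ₂, hθ₂, h2⟩ := hM S₀ hS₀ θ₁ hθ₁
  refine ⟨θ₂, hθ₂, fun m hm S hS hD T hT t ht => ?_⟩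
  have hS0 : 0 ≤ S := hS₀.le.trans hS
  have hD1 := hPRE μ a b hG d m S hS0 hD (m + 1) (Nat.le_succ m)
  obtain ⟨T', hT', h3⟩ := h2 (m + 1) (hm.trans (Nat.le_succ m)) S hS hD1 T hT
  obtain ⟨T'', hT'', h4⟩ := h1 m hm S hS hD T' hT'
  have hab := hG.lt
  have h5 : Bad μ a b (m + 1) S θ₁ T' (b - t - S - (b - a) / 4) :=
    h3 t ht _ (by linarith) le_rfl
  exact ⟨T'', hT'', h4 _ h5 _ (by linarith) (by linarith)⟩

/-- Many levels. -/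
theorem many (hSTP : S_STP) (hPRE : S_PRE) (μ : Measure ℝ) (a b : ℝ) (hG : Good μ a b) (d : ℕ) :
    ∃ M : ℕ, ∀ k : ℕ, ∀ S₀ : ℝ, 0 < S₀ → ∃ q : ℝ, 0 < q ∧ ∀ m : ℕ, M ≤ m →
      ∀ S : ℝ, S₀ ≤ S → (∀ T : RT, T.Wd d → Dom S (law μ b m T false) (law μ b m T true)) →
      ∀ T : RT, T.Wd d → ∀ t : ℝ, Bad μ a b (m + 2 * k) S q T t →
        ∃ T' : RT, T'.Wd d ∧ Bad μ a b m S 1 T' (t - k * ((b - a) / 2)) := by
  obtain ⟨M, hM⟩ := two hSTP hPRE μ a b hG d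
  refine ⟨M, fun k => ?_⟩
  induction k with
  | zero =>
    intro S₀ _
    refine ⟨1, one_pos, fun m _ S _ _ T hT t ht => ⟨T, hT, ?_⟩⟩
    simpa using ht
  | succ k ih =>
    intro S₀ hS₀
    obtain ⟨q, hq, h1⟩ := ih S₀ hS₀
    obtain ⟨θ, hθ, h2⟩ := hM S₀ hS₀ q hq
    refine ⟨θ, hθ, fun m hm S hS hD T hT t ht => ?_⟩
    have hS0 : 0 ≤ S := hS₀.le.trans hS
    have hD1 := hPRE μ a b hG d m S hS0 hD (m + 2 * k) (Nat.le_add_right m _)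
    obtain ⟨T', hT', h3⟩ := h2 (m + 2 * k) (hm.trans (Nat.le_add_right m _)) S hS hD1 T hT t ht
    obtain ⟨T'', hT'', h4⟩ := h1 m hm S hS hD T' hT' _ h3
    refine ⟨T'', hT'', ?_⟩
    have e : t - ((k + 1 : ℕ) : ℝ) * ((b - a) / 2) = t - (b - a) / 2 - k * ((b - a) / 2) := by
      push_cast; ring
    rw [e]
    exact h4

/-- There are no bad points for small thresholds. -/
theorem t_SLP : S_STP → S_PRE → S_LPR → S_SLP := by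
  intro hSTP hPRE hLPR μ a b hG d
  obtain ⟨M, hM⟩ := many hSTP hPRE μ a b hG d
  have hab : 0 < (b - a) / 2 := by have := hG.lt; linarith
  obtain ⟨k, hk⟩ := exists_nat_gt (b / ((b - a) / 2))
  have hk' : b < k * ((b - a) / 2) := (div_lt_iff₀ hab).1 hk
  refine ⟨M, 2 * k, fun S₀ hS₀ => ?_⟩
  obtain ⟨q, hq, h1⟩ := hM k S₀ hS₀
  refine ⟨q, hq, fun m hm S hS hD T hT t ht => ?_⟩
  obtain ⟨T', _, h2⟩ := h1 m hm S hS hD T hT t ht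
  have h3 := (hLPR μ a b hG m T').2.1
  have h4 := (hLPR μ a b hG (m + 2 * k) T).2.2.2.1
  have h5 := h2.1
  have h6 := ht.2.1
  linarith

end Pool.Agent.H56.MW.SLP
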